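import Mathlib

set_option maxHeartbeats 400000

namespace Pool.Agent.H.MP_783189_al

open Subgroup Cardinal
open scoped commutatorElement

variable {H H' : Type} [Group H] [Group H']

theorem dich {N L K : Subgroup H} [N.Normal] (hL : L.IsSubnormal) (hK : ⁅K, K⁆ = K) (h : K ≤ L)
    (h0 : ⁅K, N ⊓ L⁆ = ⊥) : ⁅K, N⁆ = ⊥ := by
  induction hL with
  | top => simpa using h0
  | step L L' hle _ hN ih =>
    refine ih (h.trans hle) ?_
    have h1 : ⁅⁅K, N ⊓ L'⁆, K⁆ = ⊥ := by
      rw [commutator_comm, eq_bot_iff, ← h0]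
      refine commutator_mono le_rfl (commutator_le.2 fun k hk n hn => ⟨?_, ?_⟩)
      · exact commutator_le_right K N (commutator_mem_commutator hk hn.1)
      · rw [commutatorElement_def, mul_assoc, mul_assoc, ← mul_assoc n]
        exact mul_mem (h hk) (by
          simpa [mul_assoc] using
            (normal_subgroupOf_iff hle).1 hN k⁻¹ n (inv_mem (h hk)) hn.2)
    rw [← hK]
    exact commutator_commutator_eq_bot_of_rotate h1 (by rwa [commutator_comm (N ⊓ L') K])

/-- `h` acts on each component with support of size at most `κ` -/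
def R (κ : Cardinal) (h : H) : Prop := ∀ K : Subgroup H, K.IsSubnormal → IsSimpleGroup K →
  ⁅K, K⁆ = K → ∃ Y : Set H, Y ⊆ K ∧ #Y ≤ κ ∧ ∀ k ∈ K, (∀ y ∈ Y, Commute k y) → Commute k h

variable {κ : Cardinal}

theorem R.mul (hκ : ℵ₀ ≤ κ) {a b : H} (ha : R κ a) (hb : R κ b) : R κ (a * b) := fun K h1 h2 h3 => by
  obtain ⟨Y, y1, y2, y3⟩ := ha K h1 h2 h3
  obtain ⟨Z, z1, z2, z3⟩ := hb K h1 h2 h3
  exact ⟨Y ∪ Z, Set.union_subset y1 z1, (mk_union_le _ _).trans (add_le_of_le hκ y2 z2),
    fun k hk h => (y3 k hk fun y hy => h y (.inl hy)).mul_right (z3 k hk fun y hy => h y (.inr hy))⟩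

theorem R.down (f : H →* H') (hf : Function.Injective f) (hn : f.range.Normal) {h : H}
    (hh : R κ (f h)) : R κ h := fun K h1 h2 h3 => by
  obtain ⟨Y, y1, y2, y3⟩ := hh (K.map f) (by
    have := (h1.map f.rangeRestrict_surjective).trans' hn.isSubnormal
    rwa [map_map] at this) (K.equivMapOfInjective f hf).symm.isSimpleGroup
      (by rw [← map_commutator, h3])
  refine ⟨f ⁻¹' Y, fun y hy => (mem_map_iff_mem hf).1 (y1 hy),
    (mk_preimage_of_injective f Y hf).trans y2, fun k hk h => ?_⟩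
  refine (y3 _ (mem_map_of_mem f hk) fun y hy => ?_).of_map hf
  obtain ⟨z, -, rfl⟩ := y1 hy
  exact (h z hy).map f

theorem R.up {N : Subgroup H} [N.Normal] {n : N} (hh : R κ n) : R κ (n : H) := fun K h1 h2 h3 => by
  rcases (inferInstance : (N.subgroupOf K).Normal).eq_bot_or_eq_top with h | h
  · have := dich (N := N) h1 h3 le_rfl (by
      rw [(subgroupOf_eq_bot.1 h).eq_bot, commutator_bot_right])
    exact ⟨∅, by simp, by simp, fun k hk _ => commutatorElement_eq_one_iff_commute.1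
      (mem_bot.1 (this ▸ commutator_mem_commutator hk n.2))⟩
  · rw [subgroupOf_eq_top] at h
    obtain ⟨Y, y1, y2, y3⟩ := hh (K.subgroupOf N) h1.subgroupOf
      (subgroupOfEquivOfLe h).isSimpleGroup (map_injective N.subtype_injective (by
        rw [map_commutator, map_subgroupOf_eq_of_le h, h3]))
    refine ⟨N.subtype '' Y, ?_, mk_image_le.trans y2, fun k hk e => ?_⟩
    · rintro _ ⟨y, hy, rfl⟩
      exact y1 hy
    · exact (y3 ⟨k, h hk⟩ hk fun y hy =>
        Commute.of_map N.subtype_injective (e _ ⟨y, hy, rfl⟩)).map N.subtype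

/-- Fitting classes -/
def Fi (F : (H : Type) → Group H → Prop) : Prop :=
  (∀ (H K : Type) (iH : Group H) (iK : Group K), Nonempty (H ≃* K) → F H iH → F K iK) ∧
    (∀ (H : Type) (iH : Group H) (N : Subgroup H), N.Normal → F H iH → F (↥N) inferInstance) ∧
    (∀ (H : Type) (iH : Group H) (N M : Subgroup H), N.Normal → M.Normal →
      F (↥N) inferInstance → F (↥M) inferInstance → F (↥(N ⊔ M)) inferInstance)

theorem fi_R (hκ : ℵ₀ ≤ κ) : Fi fun H _ => ∀ h : H, R κ h := by
  refine ⟨fun H K _ _ ⟨e⟩ h k => R.down e.symm.toMonoidHom e.symm.injective ?_ (h _),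
    fun H _ N hN h n => R.down N.subtype N.subtype_injective (by simpa) (h _),
    fun H _ N M hN hM h1 h2 x => R.down (N ⊔ M).subtype (subtype_injective _) ?_ ?_⟩
  · rw [MonoidHom.range_eq_top.2 e.symm.surjective]
    infer_instance
  · rw [range_subtype]
    infer_instance
  · obtain ⟨n, hn, m, hm, e⟩ := mem_sup_of_normal_left.1 x.2
    rw [subtype_apply, ← e]
    exact (h1 ⟨n, hn⟩).up.mul hκ (h2 ⟨m, hm⟩).up

theorem fi_inter {G : Type} [Group G] {P : (H : Type) → Group H → Prop} (hP : Fi P) :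
    Fi fun K iK => (∀ E, Fi E → E G inferInstance → E K iK) ∧ P K iK :=
  ⟨fun H K iH iK e h => ⟨fun E hE hG => hE.1 H K iH iK e (h.1 E hE hG), hP.1 H K iH iK e h.2⟩,
    fun H iH N hN h => ⟨fun E hE hG => hE.2.1 H iH N hN (h.1 E hE hG), hP.2.1 H iH N hN h.2⟩,
    fun H iH N M hN hM h k => ⟨fun E hE hG => hE.2.2 H iH N M hN hM (h.1 E hE hG) (k.1 E hE hG),
      hP.2.2 H iH N M hN hM h.2 k.2⟩⟩

end Pool.Agent.H.MP_783189_al
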