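import Mathlib

set_option maxHeartbeats 400000

namespace Pool.Agent.H.MP_783189_al

open Subgroup Cardinal Equiv
open scoped commutatorElement Classical

variable {Ω : Type}

/-- three-cycles -/
noncomputable def c (x y z : Ω) : Perm Ω := swap x y * swap y z

theorem c_conj (g : Perm Ω) (x y z : Ω) : g * c x y z * g⁻¹ = c (g x) (g y) (g z) := by
  simp [c, swap_apply_apply, mul_assoc]

theorem c_ap {x y z : Ω} (h : x ≠ y) (h' : x ≠ z) : c x y z x = y := by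
  simp [c, swap_apply_of_ne_of_ne h h']

theorem c_fix {x y z w : Ω} (h : w ≠ x) (h' : w ≠ y) (h'' : w ≠ z) : c x y z w = w := by
  simp [c, swap_apply_of_ne_of_ne, *]

theorem c_rot {x y z : Ω} (h : x ≠ y) (h' : y ≠ z) (h'' : x ≠ z) : c x y z = c y z x := by
  ext w
  simp only [c, Perm.mul_apply, swap_apply_def]
  grind

variable (Ω) in
/-- the finitary alternating group -/
def S : Subgroup (Perm Ω) := closure {σ | ∃ x y z, x ≠ y ∧ y ≠ z ∧ x ≠ z ∧ σ = c x y z}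

theorem c_mem {x y z : Ω} (h : x ≠ y) (h' : y ≠ z) (h'' : x ≠ z) : c x y z ∈ S Ω :=
  subset_closure ⟨x, y, z, h, h', h'', rfl⟩

instance : (S Ω).Normal := ⟨fun n hn g => by
  have : S Ω ≤ (S Ω).comap (MulAut.conj g).toMonoidHom := (closure_le _).2 (by
    rintro _ ⟨x, y, z, h, h', h'', rfl⟩
    show g * _ * g⁻¹ ∈ S Ω
    rw [c_conj]
    exact c_mem (by simpa) (by simpa) (by simpa))
  exact this hn⟩

theorem fin {g : Perm Ω} (hg : g ∈ S Ω) : {x | g x ≠ x}.Finite := by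
  induction hg using closure_induction with
  | mem _ h =>
    obtain ⟨x, y, z, -, -, -, rfl⟩ := h
    refine (Set.toFinite {x, y, z}).subset fun w hw => ?_
    by_contra h
    simp only [Set.mem_insert_iff, Set.mem_singleton_iff, not_or] at h
    exact hw (c_fix h.1 h.2.1 h.2.2)
  | one => simp
  | mul a b _ _ ha hb =>
    refine (ha.union hb).subset fun w hw => ?_
    by_contra h
    simp only [Set.mem_union, Set.mem_setOf_eq, not_or, not_not] at h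
    exact hw (by rw [Perm.mul_apply, h.2, h.1])
  | inv a _ ha => exact ha.subset fun w hw e => hw (Perm.inv_eq_iff_eq.2 e.symm)

variable [Infinite Ω]

theorem fresh {Z : Set Ω} (hZ : #Z < #Ω) (F : Finset Ω) : ∃ w, w ∉ Z ∧ w ∉ F := by
  by_contra h
  have : Z ∪ F = Set.univ := Set.eq_univ_of_forall fun w => by
    by_contra h'
    exact h ⟨w, fun e => h' (.inl e), fun e => h' (.inr e)⟩
  have h1 := (mk_union_le Z F).trans_lt (add_lt_of_lt (aleph0_le_mk Ω) hZ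
    (F.finite_toSet.lt_aleph0.trans_le (aleph0_le_mk Ω)))
  rw [this, mk_univ] at h1
  exact h1.false

theorem ex3 {Z : Set Ω} (hZ : #Z < #Ω) (x : Ω) : ∃ a b, x ≠ a ∧ a ≠ b ∧ x ≠ b ∧ a ∉ Z ∧ b ∉ Z := by
  obtain ⟨a, h1, h2⟩ := fresh hZ {x}
  obtain ⟨b, h3, h4⟩ := fresh hZ {x, a}
  simp only [Finset.mem_insert, Finset.mem_singleton, not_or] at h2 h4
  exact ⟨a, b, Ne.symm h2, Ne.symm h4.2, Ne.symm h4.1, h1, h3⟩

theorem S_le {N : Subgroup (Perm Ω)} (hN : ∀ s ∈ S Ω, ∀ n ∈ N, s * n * s⁻¹ ∈ N) {g : Perm Ω}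
    (h1 : g ∈ N) (h2 : g ∈ S Ω) (h3 : g ≠ 1) : S Ω ≤ N := by
  have st : ∀ {x y z w : Ω}, x ≠ y → y ≠ z → x ≠ z → w ≠ x → w ≠ y → w ≠ z → c x y z ∈ N →
      c y z w ∈ N := fun {x y z w} a1 a2 a3 a4 a5 a6 h => by
    obtain ⟨u, hu⟩ := Infinite.exists_notMem_finset {x, y, z, w}
    simp only [Finset.mem_insert, Finset.mem_singleton, not_or] at hu
    have := hN _ (c_mem a4.symm (Ne.symm hu.2.2.2) (Ne.symm hu.1)) _ h
    rwa [c_conj, c_ap a4.symm (Ne.symm hu.1), c_fix a1.symm a5.symm (Ne.symm hu.2.1),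
      c_fix a3.symm a6.symm (Ne.symm hu.2.2.1), c_rot a5 a2 a6] at this
  obtain ⟨x, hx⟩ : ∃ x, g x ≠ x := by
    by_contra h
    exact h3 (Perm.ext fun x => not_not.1 fun e => h ⟨x, e⟩)
  obtain ⟨a, b, a1, a2, a3, a4, a5⟩ := ex3 ((fin h2).lt_aleph0.trans_le (aleph0_le_mk Ω)) x
  simp only [Set.mem_setOf_eq, not_not] at a4 a5
  have a6 : g x ≠ a := fun e => a1 (g.injective (e.trans a4.symm))
  have a7 : g x ≠ b := fun e => a3 (g.injective (e.trans a5.symm))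
  have h4 : c x (g x) a ∈ N := by
    have := mul_mem h1 (hN _ (c_mem a1 a2 a3) _ (inv_mem h1))
    rw [← mul_assoc, ← mul_assoc, c_conj, a4, a5] at this
    convert this using 1
    rw [eq_mul_inv_iff_mul_eq]
    ext w
    simp only [c, Perm.mul_apply, swap_apply_def]
    grind
  refine (closure_le _).2 ?_
  rintro _ ⟨x', y', z', b1, b2, b3, rfl⟩
  obtain ⟨u, hu⟩ := Infinite.exists_notMem_finset {x, g x, a, x', y', z'}
  obtain ⟨v, hv⟩ := Infinite.exists_notMem_finset {x, g x, a, x', y', z', u}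
  obtain ⟨w, hw⟩ := Infinite.exists_notMem_finset {x, g x, a, x', y', z', u, v}
  simp only [Finset.mem_insert, Finset.mem_singleton, not_or] at hu hv hw
  refine st (x := w) ?_ ?_ ?_ ?_ ?_ ?_ (st (x := v) ?_ ?_ ?_ ?_ ?_ ?_ (st (x := u) ?_ ?_ ?_ ?_ ?_ ?_
    (st (x := a) ?_ ?_ ?_ ?_ ?_ ?_ (st (x := g x) ?_ ?_ ?_ ?_ ?_ ?_
      (st ?_ ?_ ?_ ?_ ?_ ?_ h4))))) <;> grind

theorem S_nc : ∃ a ∈ S Ω, ∃ b ∈ S Ω, ¬ Commute a b := by
  obtain ⟨x⟩ : Nonempty Ω := inferInstance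
  obtain ⟨a, b, a1, a2, a3, -, -⟩ := ex3 (Z := ∅) (by simp [mk_ne_zero, pos_iff_ne_zero]) x
  obtain ⟨u, hu⟩ := Infinite.exists_notMem_finset {x, a, b}
  simp only [Finset.mem_insert, Finset.mem_singleton, not_or] at hu
  refine ⟨_, c_mem a1 a2 a3, _, c_mem a1 (Ne.symm hu.2.1) (Ne.symm hu.1), fun h => ?_⟩
  have := congrArg (fun g : Perm Ω => g x) h.eq
  simp only [c, Perm.mul_apply, swap_apply_def] at this
  grind

instance : IsSimpleGroup (S Ω) where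
  exists_pair_ne := by
    obtain ⟨a, ha, b, -, h⟩ := S_nc (Ω := Ω)
    exact ⟨⟨a, ha⟩, 1, fun e => h (by rw [show a = 1 from congrArg Subtype.val e]; simp)⟩
  eq_bot_or_eq_top_of_normal N hN := by
    refine or_iff_not_imp_left.2 fun h => ?_
    obtain ⟨⟨g, hg⟩, h1⟩ := ne_bot_iff_exists_ne_one.1 h
    have := S_le (N := N.map (S Ω).subtype) (by
      rintro s hs _ ⟨n, hn, rfl⟩
      exact ⟨_, hN.conj_mem n hn ⟨s, hs⟩, rfl⟩) ⟨g, hg, rfl⟩ g.2
        fun e => h1 (Subtype.ext (Subtype.ext e))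
    exact eq_top_iff.2 fun s _ => (mem_map_iff_mem (subtype_injective _)).1 (this s.2)

theorem S_perf : ⁅S Ω, S Ω⁆ = S Ω := by
  obtain ⟨a, ha, b, hb, h⟩ := S_nc (Ω := Ω)
  exact (commutator_le_left _ _).antisymm (S_le
    (fun s _ n hn => Normal.conj_mem inferInstance n hn s) (commutator_mem_commutator ha hb)
    (commutator_le_left _ _ (commutator_mem_commutator ha hb))
    fun e => h (commutatorElement_eq_one_iff_commute.1 e))

theorem mv {k s : Perm Ω} (h : Commute k s) {x : Ω} (hx : s x ≠ x) : s (k x) ≠ k x := fun e =>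
  hx (k.injective (by rw [← Perm.mul_apply, h.eq, Perm.mul_apply, e]))

theorem pos (h : Perm Ω) {κ : Cardinal} (hκ : ℵ₀ ≤ κ) (hh : #{x | h x ≠ x} ≤ κ) :
    ∃ Y : Set (Perm Ω), Y ⊆ S Ω ∧ #Y ≤ κ ∧ ∀ k, (∀ y ∈ Y, Commute k y) → Commute k h := by
  have : ∀ x : Ω, ∃ s ∈ S Ω, ∃ t ∈ S Ω, ∀ k, Commute k s → Commute k t → k x = x := fun x => by
    obtain ⟨a, b, a1, a2, a3, -, -⟩ := ex3 (Z := ∅) (by simp [mk_ne_zero, pos_iff_ne_zero]) x
    obtain ⟨u, v, b1, b2, b3, b4, b5⟩ :=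
      ex3 ((Set.toFinite {a, b}).lt_aleph0.trans_le (aleph0_le_mk Ω)) x
    refine ⟨_, c_mem a1 a2 a3, _, c_mem b1 b2 b3, fun k h1 h2 => ?_⟩
    have e1 := mv h1 (x := x) (by rw [c_ap a1 a3]; exact a1.symm)
    have e2 := mv h2 (x := x) (by rw [c_ap b1 b3]; exact b1.symm)
    by_contra e
    simp only [Set.mem_insert_iff, Set.mem_singleton_iff, not_or] at b4 b5
    refine e1 (c_fix e (fun p => e2 (c_fix e ?_ ?_)) fun p => e2 (c_fix e ?_ ?_)) <;> grind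
  choose s hs t ht hk using this
  refine ⟨s '' {x | h x ≠ x} ∪ t '' {x | h x ≠ x}, ?_, (mk_union_le _ _).trans
    (add_le_of_le hκ (mk_image_le.trans hh) (mk_image_le.trans hh)), fun k e => ?_⟩
  · rintro _ (⟨x, -, rfl⟩ | ⟨x, -, rfl⟩)
    exacts [hs x, ht x]
  · exact Perm.Disjoint.commute fun x => or_iff_not_imp_right.2 fun hx =>
      hk x k (e _ (.inl ⟨x, hx, rfl⟩)) (e _ (.inr ⟨x, hx, rfl⟩))

theorem neg (h : Perm Ω) {κ : Cardinal} (hκ : ℵ₀ ≤ κ) (hh : κ < #{x | h x ≠ x})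
    {Y : Set (Perm Ω)} (h1 : Y ⊆ S Ω) (h2 : #Y ≤ κ) :
    ∃ k ∈ S Ω, (∀ y ∈ Y, Commute k y) ∧ ¬ Commute k h := by
  have h3 : #(⋃ y : Y, {x | y.1 x ≠ x}) ≤ κ := by
    refine mk_iUnion_le_sum_mk.trans ((sum_le_sum _ (fun _ => ℵ₀)
      fun y => (fin (h1 y.2)).lt_aleph0.le).trans ?_)
    rw [sum_const']
    exact (mul_le_mul' h2 hκ).trans (mul_eq_self hκ).le
  obtain ⟨x, hx, h4⟩ := Set.not_subset.1 fun e => (h3.trans_lt hh).not_ge (mk_le_mk_of_subset e)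
  obtain ⟨a, b, a1, a2, a3, a4, a5⟩ := ex3 ((mk_insert_le (a := h x)).trans_lt
    (add_lt_of_lt (aleph0_le_mk Ω) ((h3.trans_lt hh).trans_le (mk_set_le _))
      (one_lt_aleph0.trans_le (aleph0_le_mk Ω)))) x
  simp only [Set.mem_insert_iff, Set.mem_iUnion, Set.mem_setOf_eq, not_or, not_exists,
    not_not] at a4 a5 h4
  refine ⟨_, c_mem a1 a2 a3, fun y hy => Perm.Disjoint.commute fun w => ?_, fun e => ?_⟩
  · refine or_iff_not_imp_right.2 fun hw => c_fix ?_ ?_ ?_ <;> rintro rfl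
    exacts [hw (h4 ⟨y, hy⟩), hw (a4.2 ⟨y, hy⟩), hw (a5.2 ⟨y, hy⟩)]
  · exact mv e.symm (x := x) (by rw [c_ap a1 a3]; exact a1.symm)
      (c_fix hx (Ne.symm a4.1) (Ne.symm a5.1))

end Pool.Agent.H.MP_783189_al
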