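import Pool.Agent.H.MP_783189_al.A
import Pool.Agent.H.MP_783189_al.B

set_option maxHeartbeats 400000

namespace Pool.Agent.H.MP_783189_al

open Subgroup Cardinal Equiv
open scoped commutatorElement Classical

variable {Y : Type}

/-- flips -/
def τ : Multiplicative (Y → ZMod 2) →* Perm (Y × ZMod 2) where
  toFun f := ⟨fun p => (p.1, p.2 + f.toAdd p.1), fun p => (p.1, p.2 - f.toAdd p.1),
    fun p => by simp, fun p => by simp⟩
  map_one' := by ext p <;> simp
  map_mul' f g := by ext p <;> simp [add_assoc, add_comm, add_left_comm]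

theorem τ_ap (f : Y → ZMod 2) (p : Y × ZMod 2) : τ (.ofAdd f) p = (p.1, p.2 + f p.1) := rfl

/-- the extensions -/
abbrev Gr (f : Y → ZMod 2) : Subgroup (Perm (Y × ZMod 2)) := S _ ⊔ zpowers (τ (.ofAdd f))

variable (Y) in
/-- the ambient group -/
def T : Subgroup (Perm (Y × ZMod 2)) :=
  ((QuotientGroup.mk' (S _)).comp τ).range.comap (QuotientGroup.mk' (S _))

theorem Gr_le (f : Y → ZMod 2) : Gr f ≤ T Y :=
  sup_le (fun s hs => ⟨1, by simp [(QuotientGroup.eq_one_iff s).2 hs]⟩)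
    (zpowers_le.2 ⟨.ofAdd f, rfl⟩)

theorem T_comm {a b : Perm (Y × ZMod 2)} (ha : a ∈ T Y) (hb : b ∈ T Y) : ⁅a, b⁆ ∈ S _ := by
  obtain ⟨f, hf⟩ := ha
  obtain ⟨g, hg⟩ := hb
  rw [← QuotientGroup.ker_mk' (S _), MonoidHom.mem_ker, map_commutatorElement, ← hf, ← hg,
    ← map_commutatorElement, commutatorElement_eq_one_iff_commute.2 (mul_comm f g), map_one]

instance (f : Y → ZMod 2) : ((Gr f).subgroupOf (T Y)).Normal := ⟨fun n hn g => by
  have := mul_mem (mem_sup_left (T_comm g.2 n.2) : _ ∈ Gr f) hn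
  simpa [commutatorElement_def, mem_subgroupOf] using this⟩

theorem fit {E : (H : Type) → Group H → Prop} (hE : Fi E) {f : Y → ZMod 2} (ρ : Perm Y)
    (h : E (Gr f) inferInstance) : E (Gr (f + f ∘ ρ.symm)) inferInstance := by
  have h1 : (Gr f).map (MulAut.conj (ρ.prodCongr (.refl _) : Perm _)).toMonoidHom =
      Gr (f ∘ ρ.symm) := by
    rw [Subgroup.map_sup, MonoidHom.map_zpowers]
    congr 2
    · exact Normal.conjAct inferInstance (ConjAct.toConjAct _)
    · ext p <;> simp [τ_ap]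
  have h2 : E (Gr (f ∘ ρ.symm)) inferInstance :=
    hE.1 _ _ _ _ ⟨(equivMapOfInjective _ _ (MulEquiv.injective _)).trans (MulEquiv.subgroupCongr h1)⟩ h
  have h3 := hE.2.2 (T Y) _ ((Gr f).subgroupOf _) ((Gr (f ∘ ρ.symm)).subgroupOf _)
    inferInstance inferInstance (hE.1 _ _ _ _ ⟨(subgroupOfEquivOfLe (Gr_le _)).symm⟩ h)
    (hE.1 _ _ _ _ ⟨(subgroupOfEquivOfLe (Gr_le _)).symm⟩ h2)
  refine hE.1 _ _ _ _ ⟨(subgroupOfEquivOfLe ?_).trans (subgroupOfEquivOfLe (Gr_le _))⟩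
    (hE.2.1 _ _ (((Gr (f + f ∘ ρ.symm)).subgroupOf (T Y)).subgroupOf _) inferInstance h3)
  rw [← subgroupOf_sup (Gr_le _) (Gr_le _)]
  refine comap_mono (sup_le (le_sup_left.trans le_sup_left) (zpowers_le.2 ?_))
  rw [ofAdd_add, map_mul]
  exact mul_mem (mem_sup_left (mem_sup_right (mem_zpowers _)))
    (mem_sup_right (mem_sup_right (mem_zpowers _)))

variable [Infinite Y] {κ : Cardinal}

theorem Gpos (hκ : ℵ₀ ≤ κ) {f : Y → ZMod 2} (hf : #{y | f y ≠ 0} ≤ κ) (h : Gr f) : R κ h := by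
  intro K h1 h2 h3
  have h4 : K ≤ (S _).subgroupOf (Gr f) := h3 ▸ commutator_le.2 fun a _ b _ =>
    T_comm (Gr_le _ a.2) (Gr_le _ b.2)
  have h5 : (S _).subgroupOf (Gr f) ≤ K := by
    refine subgroupOf_eq_top.1 ((h1.subgroupOf.eq_bot_or_top_of_isSimpleGroup
      (subgroupOfEquivOfLe le_sup_left).isSimpleGroup).resolve_left fun e => ?_)
    exact (nontrivial_iff_ne_bot K).1 inferInstance ((subgroupOf_eq_bot.1 e).eq_bot_of_le h4)
  let U : Subgroup (Perm (Y × ZMod 2)) :=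
    { carrier := {g | #{x | g x ≠ x} ≤ κ}
      one_mem' := by simp
      mul_mem' := fun {a b} ha hb => (mk_le_mk_of_subset fun w hw => by
        by_contra h
        simp only [Set.mem_union, Set.mem_setOf_eq, not_or, not_not] at h
        exact hw (by rw [Perm.mul_apply, h.2, h.1])).trans
          ((mk_union_le {x | a x ≠ x} {x | b x ≠ x}).trans (add_le_of_le hκ ha hb))
      inv_mem' := fun {a} ha => (mk_le_mk_of_subset (s := {x | a⁻¹ x ≠ x}) (t := {x | a x ≠ x})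
        fun w hw e => hw (Perm.inv_eq_iff_eq.2 e.symm)).trans ha }
  have h6 : Gr f ≤ U := sup_le (fun s hs => (fin hs).lt_aleph0.le.trans hκ) (zpowers_le.2 (by
    refine (mk_le_mk_of_subset (s := {x | τ (.ofAdd f) x ≠ x})
      (t := {y | f y ≠ 0} ×ˢ Set.univ) fun p hp => ⟨fun e => hp ?_, trivial⟩).trans ?_
    · rw [τ_ap, e, add_zero]
    · rw [mk_setProd]
      exact (mul_le_mul' hf ((Set.toFinite _).lt_aleph0.le.trans hκ)).trans (mul_eq_self hκ).le))
  obtain ⟨Z, z1, z2, z3⟩ := pos h.1 hκ (h6 h.2)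
  exact ⟨Subtype.val ⁻¹' Z, fun y hy => h5 (z1 hy),
    (mk_preimage_of_injective _ _ Subtype.val_injective).trans z2, fun k _ e =>
      Commute.of_map (subtype_injective _) (z3 k.1 fun y hy =>
        (e ⟨y, mem_sup_left (z1 hy)⟩ hy).map (Gr f).subtype)⟩

theorem Gneg (hκ : ℵ₀ ≤ κ) {f : Y → ZMod 2} (hf : κ < #{y | f y ≠ 0}) : ¬ ∀ h : Gr f, R κ h := by
  intro h
  obtain ⟨Z, z1, z2, z3⟩ := h ⟨_, mem_sup_right (mem_zpowers _)⟩ ((S _).subgroupOf _)
    (Normal.isSubnormal inferInstance) (subgroupOfEquivOfLe le_sup_left).isSimpleGroup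
    (map_injective (subtype_injective _) (by
      rw [map_commutator, map_subgroupOf_eq_of_le le_sup_left, S_perf]))
  obtain ⟨k, k1, k2, k3⟩ := neg (τ (.ofAdd f)) hκ (hf.trans_le (mk_le_of_injective
    (f := fun y => ⟨(y.1, 0), fun e => y.2 (by simpa [τ_ap] using e)⟩)
    fun a b e => Subtype.ext (congrArg (·.1.1) e))) (Y := Subtype.val '' Z)
    (by rintro _ ⟨y, hy, rfl⟩; exact z1 hy) (mk_image_le.trans z2)
  exact k3 ((z3 ⟨k, mem_sup_left k1⟩ k1 fun y hy =>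
    Commute.of_map (subtype_injective _) (k2 _ ⟨y, hy, rfl⟩)).map (Gr f).subtype)

theorem comp {f : Y → ZMod 2} (hf : {y | f y ≠ 0}.Infinite) :
    ∃ (n : ℕ) (s : Fin (n + 1) → Subgroup (Gr f)), s 0 = ⊥ ∧ s (Fin.last n) = ⊤ ∧
      ∀ i : Fin n, s i.castSucc ≤ s i.succ ∧
        ((s i.castSucc).subgroupOf (s i.succ)).Normal ∧
        (s i.castSucc).subgroupOf (s i.succ) ≠ ⊤ ∧
        ∀ M : Subgroup ↥(s i.succ), M.Normal →
          (s i.castSucc).subgroupOf (s i.succ) ≤ M →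
            M = (s i.castSucc).subgroupOf (s i.succ) ∨ M = ⊤ := by
  have h1 : ∀ g ∈ Gr f, g ∉ S _ → g * (τ (.ofAdd f))⁻¹ ∈ S _ := fun g hg h => by
    obtain ⟨s, hs, _, ⟨k, rfl⟩, rfl⟩ := mem_sup_of_normal_left.1 hg
    have : τ (.ofAdd f) ^ (2 : ℤ) = 1 := by
      rw [zpow_two]
      ext p <;> simp [τ_ap, add_assoc, CharTwo.add_self_eq_zero]
    obtain ⟨j, rfl | rfl⟩ := Int.even_or_odd' k
    · simp [zpow_mul, this, hs] at h
    · simp [zpow_add, zpow_mul, this, hs]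
  have h2 : IsSimpleGroup ((S _).subgroupOf (Gr f)) :=
    (subgroupOfEquivOfLe le_sup_left).isSimpleGroup
  refine ⟨2, ![⊥, (S _).subgroupOf _, ⊤], rfl, rfl, Fin.forall_fin_two.2 ⟨⟨bot_le, ?_⟩, le_top, ?_⟩⟩
  · show ((⊥ : Subgroup (Gr f)).subgroupOf ((S _).subgroupOf (Gr f))).Normal ∧
      (⊥ : Subgroup (Gr f)).subgroupOf ((S _).subgroupOf (Gr f)) ≠ ⊤ ∧
      ∀ M : Subgroup ((S _).subgroupOf (Gr f)), M.Normal → _ →
        M = (⊥ : Subgroup (Gr f)).subgroupOf _ ∨ M = ⊤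
    rw [bot_subgroupOf]
    exact ⟨inferInstance, bot_ne_top, fun M hM _ => hM.eq_bot_or_eq_top⟩
  · show (((S _).subgroupOf (Gr f)).subgroupOf ⊤).Normal ∧
      ((S _).subgroupOf (Gr f)).subgroupOf ⊤ ≠ ⊤ ∧ ∀ M : Subgroup (⊤ : Subgroup (Gr f)), M.Normal →
        ((S _).subgroupOf (Gr f)).subgroupOf ⊤ ≤ M →
          M = ((S _).subgroupOf (Gr f)).subgroupOf ⊤ ∨ M = ⊤
    refine ⟨inferInstance, fun e => hf ?_, fun M _ h => or_iff_not_imp_left.2 fun e => ?_⟩
    · have := fin (subgroupOf_eq_top.1 e (mem_top ⟨_, mem_sup_right (mem_zpowers _)⟩))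
      exact (this.image Prod.fst).subset fun y hy => ⟨(y, 0), by simpa [τ_ap] using hy, rfl⟩
    · obtain ⟨m, hm, h3⟩ := SetLike.exists_of_lt (lt_of_le_of_ne h (Ne.symm e))
      refine eq_top_iff.2 fun g _ => ?_
      by_cases hg : g.1.1 ∈ S _
      · exact h hg
      · have : g * m⁻¹ ∈ M := h (by
          simpa [mem_subgroupOf, mul_assoc] using
            mul_mem (h1 _ g.1.2 hg) (inv_mem (h1 _ m.1.2 h3)))
        simpa using mul_mem this hm

/-- the index set -/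
abbrev W : Type := ℤ × (aleph Ordinal.omega0).out

/-- the half line -/
def a0 : W → ZMod 2 := fun y => if 0 ≤ y.1 then 1 else 0

instance : Infinite (aleph.{0} Ordinal.omega0).out := by
  rw [Cardinal.infinite_iff, mk_out]
  exact aleph0_le_aleph _

theorem a0_inf : {y | a0 y ≠ 0}.Infinite := by
  refine Set.infinite_of_injective_forall_mem (f := fun w => ((0 : ℤ), w))
    (fun a b e => congrArg Prod.snd e) fun w => by simp [a0]

theorem wit (n : ℕ) : ∃ f : W → ZMod 2, #{y | f y ≠ 0} = aleph n ∧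
    ∀ E, Fi E → E (Gr a0) inferInstance → E (Gr f) inferInstance := by
  obtain ⟨C, hC⟩ := (le_mk_iff_exists_set (α := (aleph Ordinal.omega0).out)).1
    ((aleph_le_aleph.2 (Ordinal.natCast_lt_omega0 n).le).trans (mk_out _).ge)
  let ρ : Perm W := ⟨fun y => (if y.2 ∈ C then y.1 + 1 else y.1, y.2),
    fun y => (if y.2 ∈ C then y.1 - 1 else y.1, y.2), fun y => by
      by_cases h : y.2 ∈ C <;> simp [h], fun y => by by_cases h : y.2 ∈ C <;> simp [h]⟩
  refine ⟨_, ?_, fun E hE h => fit hE ρ h⟩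
  rw [← hC, ← mk_image_eq (s := C) (f := fun w => ((0 : ℤ), w)) (fun a b e => congrArg Prod.snd e)]
  refine congrArg (fun s : Set W => #s) (Set.ext fun ⟨k, w⟩ => ?_)
  by_cases h : w ∈ C <;> simp [a0, ρ, h, CharTwo.add_self_eq_zero]
  split_ifs <;> simp [CharTwo.add_self_eq_zero] <;> omega

theorem main : Set.Infinite {F : (H : Type) → Group H → Prop | Fi F ∧
    ∀ (K : Type) (iK : Group K), F K iK → ∀ E, Fi E → E (Gr a0) inferInstance → E K iK} := by
  have key : ∀ {n m : ℕ}, n < m → (fun (K : Type) (iK : Group K) =>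
      (∀ E, Fi E → E (Gr a0) inferInstance → E K iK) ∧ ∀ h : K, R (aleph n) h) ≠
      fun (K : Type) (iK : Group K) => (∀ E, Fi E → E (Gr a0) inferInstance → E K iK) ∧ ∀ h : K, R (aleph m) h :=
    fun {n m} h e => by
      obtain ⟨f, h1, h2⟩ := wit m
      exact Gneg (aleph0_le_aleph n) (h1 ▸ aleph_lt_aleph.2 (Nat.cast_lt.2 h))
        ((congrFun (congrFun e (Gr f)) inferInstance).mpr
          ⟨h2, Gpos (aleph0_le_aleph _) h1.le⟩).2
  refine Set.infinite_of_injective_forall_mem (f := fun (n : ℕ) (K : Type) (iK : Group K) =>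
    (∀ E, Fi E → E (Gr a0) inferInstance → E K iK) ∧ ∀ h : K, R (aleph n) h) (fun n m e => ?_)
    fun n => ⟨fi_inter (fi_R (aleph0_le_aleph _)), fun K iK h => h.1⟩
  exact (lt_trichotomy n m).elim (fun h => (key h e).elim)
    fun h => h.elim id fun h => (key h e.symm).elim

end Pool.Agent.H.MP_783189_al
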